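import Pool.Agent.H58.JU.Targets

/-!
MP_6a7a6f_gt, row LAM of jun_modules.
-/

namespace Pool.Agent.H14.JU

open Pool.Agent.H58.JU Pool.Agent.H59 Pool.Agent.H48.FR Pool.Agent.H58.FL
open scoped RealInnerProductSpace Quaternion

theorem pf_LAM (hLPY : T_LPY) : T_LAM := by
  intro M W _ _ _ c c' L N t x hd hne hc hc' y hy
  obtain ⟨l1, l2⟩ := hLPY M W c c' L
  set G : ℝ := ∑ i, t i * L.p (x i) with hG
  set S : W := ∑ i, (t i * L.p (x i)) • L.w (x i) with hS
  have hF : ∀ z, L.p z = 1 → Fs t x z = (G + ⟪S, L.w z⟫) / 2 := by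
    intro z hz
    unfold Fs
    have h1 : ∀ i, t i * ov z (x i) =
        (t i * L.p (x i) + ⟪(t i * L.p (x i)) • L.w (x i), L.w z⟫) / 2 := by
      intro i
      have h2 : ov z (x i) = ov (x i) z := by
        unfold ov
        rw [dist_comm]
      rw [h2, l1 (x i) z hz, real_inner_smul_left]
      ring
    rw [Finset.sum_congr rfl fun i _ => h1 i, ← Finset.sum_div, Finset.sum_add_distrib, hG, hS,
      sum_inner]
  by_cases hS0 : S = 0
  · rw [hF y hy, hS0, inner_zero_left, add_zero]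
  · exfalso
    have hpos : 0 < ‖S‖ := norm_pos_iff.2 hS0
    have hv : ‖(1 / ‖S‖) • S‖ = 1 := by
      rw [norm_smul, Real.norm_eq_abs, abs_of_pos (by positivity)]
      field_simp
    obtain ⟨z, hz1, hz2⟩ := L.sur _ hv
    have hSz : ⟪S, L.w z⟫ = ‖S‖ := by
      rw [hz2, real_inner_smul_right, real_inner_self_eq_norm_sq]
      field_simp
    have key : ∀ q, L.p q = 1 → IsMx (Fs t x) q → L.w q = (1 / ‖S‖) • S := by
      intro q hq hm
      have h1 := hm z
      rw [hF z hz1, hF q hq, hSz] at h1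
      have h2 : ‖S‖ ≤ ⟪S, L.w q⟫ := by linarith
      have h3 : ‖L.w q - (1 / ‖S‖) • S‖ ^ 2 ≤ 0 := by
        rw [@norm_sub_sq_real, L.norm_w, hv, real_inner_smul_right, real_inner_comm]
        have h4 : 1 ≤ 1 / ‖S‖ * ⟪S, L.w q⟫ := by
          rw [div_mul_eq_mul_div, one_mul, le_div_iff₀ hpos]
          linarith
        linarith
      have h5 : ‖L.w q - (1 / ‖S‖) • S‖ = 0 := by
        have := norm_nonneg (L.w q - (1 / ‖S‖) • S)
        nlinarith
      exact sub_eq_zero.1 (norm_eq_zero.1 h5)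
    exact hne (l2 c c' L.p_left L.p_right
      ((key c L.p_left hc).trans (key c' L.p_right hc').symm) (hd c c'))

end Pool.Agent.H14.JU
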