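import Pool.Agent.H58.JU.Targets

/-!
MP_6a7a6f_gt, row LPY of jun_modules.
-/

namespace Pool.Agent.H14.JU

open Pool.Agent.H58.JU Pool.Agent.H59 Pool.Agent.H48.FR Pool.Agent.H58.FL
open scoped RealInnerProductSpace Quaternion

theorem K_diag {M W : Type} [MetricSpace M] [NormedAddCommGroup W]
    [InnerProductSpace ℝ W] {c c' : M} (L : Line M W c c') {y : M} (hy : L.p y = 1) :
    L.K y y = 0 := by
  have h := L.dec y y
  rw [hy, real_inner_self_eq_norm_sq, L.norm_w] at h
  unfold ov at h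
  rw [dist_self, Real.cos_zero] at h
  linarith

theorem K_zero {M W : Type} [MetricSpace M] [NormedAddCommGroup W]
    [InnerProductSpace ℝ W] {c c' : M} (L : Line M W c c') (x : M) {y : M} (hy : L.p y = 1) :
    L.K x y = 0 := by
  have hd := K_diag L hy
  have h : ∀ s : ℝ, 0 ≤ L.K x x + 2 * s * L.K x y := by
    intro s
    have h0 := L.K_pos 2 ![1, s] ![x, y]
    simp only [Fin.sum_univ_two, Matrix.cons_val_zero, Matrix.cons_val_one] at h0
    rw [L.K_comm y x, hd] at h0
    linarith
  by_contra hne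
  have h1 := h (-(L.K x x + 1) / (2 * L.K x y))
  have h2 : 2 * (-(L.K x x + 1) / (2 * L.K x y)) * L.K x y = -(L.K x x + 1) := by
    field_simp
  rw [h2] at h1
  linarith

theorem pf_LPY : T_LPY := by
  intro M W _ _ _ c c' L
  have h1 : ∀ x y, L.p y = 1 → ov x y = L.p x * ((1 + ⟪L.w x, L.w y⟫) / 2) := by
    intro x y hy
    rw [L.dec x y, hy, K_zero L x hy]
    ring
  refine ⟨h1, ?_⟩
  intro x y hx hy hw hd
  have h2 := h1 x y hy
  rw [hx, hw, real_inner_self_eq_norm_sq, L.norm_w] at h2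
  unfold ov at h2
  have h3 : Real.cos (dist x y) ^ 2 = 1 := by linarith
  have h4 : 0 ≤ Real.cos (dist x y) :=
    Real.cos_nonneg_of_mem_Icc ⟨by linarith [dist_nonneg (x := x) (y := y), Real.pi_pos], hd⟩
  have h5 : Real.cos (dist x y) = 1 := by nlinarith
  have h6 : dist x y = 0 := by
    have hp := Real.pi_pos
    have h0 := dist_nonneg (x := x) (y := y)
    exact (Real.cos_eq_one_iff_of_lt_of_lt (by linarith) (by linarith)).1 h5
  exact dist_eq_zero.1 h6

end Pool.Agent.H14.JU
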